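import Pool.Agent.J4H20.AS.Stm

/-! # (ALG): coincidences of values on curves -/

set_option autoImplicit false

namespace Pool.Agent.J4H28.AS

open Polynomial Pool.Agent.J4H20.AS

noncomputable section

theorem D_pos (u : ℝ) : 0 < 1 + u + u ^ 2 := by nlinarith [sq_nonneg (u + 1 / 2)]

theorem GP_eval (x : ℝ) : GP.eval x = (x ^ 3 - 7 * x) ^ 2 := by
  simp [GP]

/-- the parametrisation -/
theorem par {x y : ℝ} (h : x ^ 2 + x * y + y ^ 2 = 7) (hx : x ≠ 1) :
    cx ((4 * x - y - 7) / (x + 5 * y + 14)) = x ∧ cy ((4 * x - y - 7) / (x + 5 * y + 14)) = y := by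
  have hW : x + 5 * y + 14 ≠ 0 := by
    intro h0
    have h1 : x = -5 * y - 14 := by linarith
    have h2 : (y + 3) ^ 2 = 0 := by
      rw [h1] at h
      nlinarith
    have h3 : y = -3 := by
      have := pow_eq_zero_iff (two_ne_zero) |>.1 h2
      linarith
    apply hx
    rw [h1, h3]
    norm_num
  set W := x + 5 * y + 14 with hWd
  set T := 4 * x - y - 7 with hTd
  have hD : 0 < W ^ 2 + T * W + T ^ 2 := by
    have h1 : 0 < W ^ 2 := by positivity
    nlinarith [sq_nonneg (T + W / 2)]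
  have e0 : 1 + T / W + (T / W) ^ 2 = (W ^ 2 + T * W + T ^ 2) / W ^ 2 := by
    field_simp
  have e1 : 2 + 6 * (T / W) + (T / W) ^ 2 = (2 * W ^ 2 + 6 * T * W + T ^ 2) / W ^ 2 := by
    field_simp
  have e2 : 1 - 4 * (T / W) - 3 * (T / W) ^ 2 = (W ^ 2 - 4 * T * W - 3 * T ^ 2) / W ^ 2 := by
    field_simp
  have hW2 : W ^ 2 ≠ 0 := pow_ne_zero 2 hW
  constructor
  · unfold cx
    rw [e0, e1, div_div_div_cancel_right₀ hW2, div_eq_iff hD.ne']
    rw [hWd, hTd]
    linear_combination (-21 * x + 21) * h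
  · unfold cy
    rw [e0, e2, div_div_div_cancel_right₀ hW2, div_eq_iff hD.ne']
    rw [hWd, hTd]
    linear_combination (-21 * y - 63) * h

/-- homogenisation -/
theorem hom_eval (A : ℝ[X]) (N : ℕ) (hN : A.natDegree ≤ N) (P : ℝ[X]) (u : ℝ) :
    (∑ i ∈ Finset.range (N + 1), C (A.coeff i) * (P ^ i * (1 + X + X ^ 2) ^ (N - i))).eval u =
      (1 + u + u ^ 2) ^ N * A.eval (P.eval u / (1 + u + u ^ 2)) := by
  have hD := (D_pos u).ne'
  rw [eval_finset_sum, eval_eq_sum_range' (Nat.lt_succ_of_le hN), Finset.mul_sum]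
  refine Finset.sum_congr rfl fun i hi => ?_
  have hi' : i ≤ N := Nat.lt_succ_iff.1 (Finset.mem_range.1 hi)
  simp only [eval_mul, eval_C, eval_pow, eval_add, eval_one, eval_X]
  rw [div_pow]
  have h1 : (1 + u + u ^ 2) ^ N = (1 + u + u ^ 2) ^ (N - i) * (1 + u + u ^ 2) ^ i := by
    rw [← pow_add, Nat.sub_add_cancel hi']
  rw [h1]
  field_simp

theorem conic (A B : ℝ[X])
    (h : {x : ℝ | ∃ y : ℝ, x ^ 2 + x * y + y ^ 2 = 7 ∧ A.eval x = B.eval y}.Infinite) (u : ℝ) :
    A.eval (cx u) = B.eval (cy u) := by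
  let N := max A.natDegree B.natDegree
  let Q : ℝ[X] := (∑ i ∈ Finset.range (N + 1),
      C (A.coeff i) * ((2 + 6 * X + X ^ 2) ^ i * (1 + X + X ^ 2) ^ (N - i))) -
    ∑ i ∈ Finset.range (N + 1),
      C (B.coeff i) * ((1 - 4 * X - 3 * X ^ 2) ^ i * (1 + X + X ^ 2) ^ (N - i))
  have hQ : ∀ u, Q.eval u = (1 + u + u ^ 2) ^ N * (A.eval (cx u) - B.eval (cy u)) := by
    intro u
    rw [eval_sub, hom_eval A N (le_max_left _ _), hom_eval B N (le_max_right _ _), mul_sub]
    simp [cx, cy]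
  have hinf : {u : ℝ | Q.eval u = 0}.Infinite := by
    have h1 : ({x : ℝ | ∃ y : ℝ, x ^ 2 + x * y + y ^ 2 = 7 ∧ A.eval x = B.eval y} \ {1}).Infinite :=
      h.diff (Set.finite_singleton 1)
    have h2 : ({x : ℝ | ∃ y : ℝ, x ^ 2 + x * y + y ^ 2 = 7 ∧ A.eval x = B.eval y} \ {1}) ⊆
        cx '' {u : ℝ | Q.eval u = 0} := by
      rintro x ⟨⟨y, hy, hA⟩, hx⟩
      obtain ⟨p1, p2⟩ := par hy hx
      refine ⟨_, ?_, p1⟩
      change Q.eval _ = 0
      rw [hQ, p1, p2, hA, sub_self, mul_zero]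
    exact Set.Infinite.of_image _ (h1.mono h2)
  have hQ0 : Q = 0 := Polynomial.eq_zero_of_infinite_isRoot _ hinf
  have h1 := hQ u
  rw [hQ0, eval_zero, eq_comm, mul_eq_zero] at h1
  rcases h1 with h1 | h1
  · exact absurd h1 (pow_ne_zero _ (D_pos u).ne')
  · linarith

theorem t_ALG : S_ALG := by
  intro A hA
  have hsub : {x : ℝ | ∃ y : ℝ, x ≠ y ∧ GP.eval x = GP.eval y ∧ A.eval x = A.eval y} ⊆
      {x : ℝ | A.eval x = A.eval (-x)} ∪
      ({x : ℝ | ∃ y : ℝ, x ^ 2 + x * y + y ^ 2 = 7 ∧ A.eval x = A.eval y} ∪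
        {x : ℝ | ∃ y : ℝ, x ^ 2 + x * y + y ^ 2 = 7 ∧ A.eval x = (A.comp (-X)).eval y}) := by
    rintro x ⟨y, hxy, hG, hAy⟩
    rw [GP_eval, GP_eval] at hG
    have h1 : (x - y) * ((x + y) * ((x ^ 2 + x * y + y ^ 2 - 7) * (x ^ 2 - x * y + y ^ 2 - 7))) =
        0 := by linear_combination hG
    rcases mul_eq_zero.1 h1 with h2 | h2
    · exact absurd (sub_eq_zero.1 h2) hxy
    rcases mul_eq_zero.1 h2 with h3 | h3
    · left
      have h4 : y = -x := by linarith
      change A.eval x = A.eval (-x)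
      rw [← h4]
      exact hAy
    rcases mul_eq_zero.1 h3 with h4 | h4
    · right
      left
      exact ⟨y, by linarith, hAy⟩
    · right
      right
      refine ⟨-y, by nlinarith, ?_⟩
      rw [eval_comp, eval_neg, eval_X, neg_neg]
      exact hAy
  have hA' := hA.mono hsub
  rw [Set.infinite_union, Set.infinite_union] at hA'
  rcases hA' with h | h | h
  · left
    have hP : A - A.comp (-X) = 0 := by
      apply Polynomial.eq_zero_of_infinite_isRoot
      refine h.mono fun x hx => ?_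
      have hx : A.eval x = A.eval (-x) := hx
      change (A - A.comp (-X)).eval x = 0
      rw [eval_sub, eval_comp, eval_neg, eval_X, hx, sub_self]
    intro x
    have h1 := congrArg (fun P : ℝ[X] => P.eval x) hP
    simp only [eval_sub, eval_comp, eval_neg, eval_X, eval_zero] at h1
    linarith
  · right
    left
    exact conic A A h
  · right
    right
    intro u
    have h1 := conic A (A.comp (-X)) h u
    rw [eval_comp, eval_neg, eval_X] at h1
    exact h1

end

end Pool.Agent.J4H28.AS
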