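import Pool.Agent.J4H20.AS.Stm

/-! # (BLK): rational blocks are dense -/

set_option autoImplicit false

namespace Pool.Agent.J4H28.AS

open Polynomial Pool.Agent.J4H20.AS Pool.Agent.W460.CG

/-- the product `x y z` -/
noncomputable def Kr (u : ℝ) : ℝ := (2 + 6 * u + u ^ 2) / (1 + u + u ^ 2) *
  ((1 - 4 * u - 3 * u ^ 2) / (1 + u + u ^ 2)) * ((3 + 2 * u - 2 * u ^ 2) / (1 + u + u ^ 2))

theorem D_ne (u : ℝ) : 1 + u + u ^ 2 ≠ 0 := by
  have : 0 < 1 + u + u ^ 2 := by nlinarith [sq_nonneg (u + 1 / 2)]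
  exact this.ne'

theorem D_posQ (u : ℚ) : 0 < 1 + u + u ^ 2 := by nlinarith [sq_nonneg (u + 1 / 2)]

theorem Kr_cont : Continuous Kr := by
  unfold Kr
  refine Continuous.mul (Continuous.mul ?_ ?_) ?_ <;>
    exact Continuous.div (by fun_prop) (by fun_prop) D_ne

/-- the polynomial whose roots are excluded, for one number -/
noncomputable def exP (w : ℚ) : ℚ[X] :=
  ((2 + 6 * X + X ^ 2) - C w * (1 + X + X ^ 2)) * ((1 - 4 * X - 3 * X ^ 2) - C w * (1 + X + X ^ 2)) *
    ((3 + 2 * X - 2 * X ^ 2) - C w * (1 + X + X ^ 2)) *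
    ((2 + 6 * X + X ^ 2) * (1 - 4 * X - 3 * X ^ 2) * (3 + 2 * X - 2 * X ^ 2) -
      C w * (1 + X + X ^ 2) ^ 3)

theorem exP_ne (w : ℚ) : exP w ≠ 0 := by
  have key : ∀ (P : ℚ[X]) (a b : ℚ), (P.eval a ≠ 0 ∨ P.eval b ≠ 0) → P ≠ 0 := by
    rintro P a b h rfl
    simp at h
  unfold exP
  refine mul_ne_zero (mul_ne_zero (mul_ne_zero ?_ ?_) ?_) ?_
  · apply key _ 0 1
    simp
    by_cases h : (2 : ℚ) - w = 0
    · right
      intro h2
      norm_num at h2
      linarith
    · exact Or.inl h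
  · apply key _ 0 1
    simp
    by_cases h : (1 : ℚ) - w = 0
    · right
      intro h2
      norm_num at h2
      linarith
    · exact Or.inl h
  · apply key _ 0 1
    simp
    by_cases h : (3 : ℚ) - w = 0
    · right
      intro h2
      norm_num at h2
      linarith
    · exact Or.inl h
  · apply key _ 0 1
    simp
    by_cases h : (2 : ℚ) * 3 - w = 0
    · right
      intro h2
      norm_num at h2
      linarith
    · exact Or.inl h

theorem t_BLK : S_BLK := by
  intro c d hc hcd hd F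
  classical
  let F' : Finset ℚ := F ∪ F.image (fun x => -x)
  have hF' : ∀ x, x ∉ F' → x ∉ F ∧ -x ∉ F := by
    intro x hx
    rw [Finset.mem_union, not_or] at hx
    refine ⟨hx.1, fun h => hx.2 ?_⟩
    rw [Finset.mem_image]
    exact ⟨-x, h, neg_neg x⟩
  -- the open set
  obtain ⟨u0, hu0, hu1, hK⟩ : ∃ u0 : ℝ, 0 < u0 ∧ 0 < 1 - 4 * u0 - 3 * u0 ^ 2 ∧
      Kr u0 = (c + d) / 2 := by
    have h2 : ∃ r : ℝ, 0 < r ∧ r < 1 / 4 ∧ 1 - 4 * r - 3 * r ^ 2 = 0 := by
      have hcont : ContinuousOn (fun t : ℝ => 1 - 4 * t - 3 * t ^ 2) (Set.Icc 0 (1 / 4)) := by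
        fun_prop
      obtain ⟨t, ht, h3⟩ := intermediate_value_Ioo' (by norm_num : (0 : ℝ) ≤ 1 / 4) hcont
        (show (0 : ℝ) ∈ Set.Ioo _ _ by constructor <;> norm_num)
      exact ⟨t, ht.1, ht.2, h3⟩
    obtain ⟨r, hr0, hr1, hr⟩ := h2
    have hKr : Kr r = 0 := by
      unfold Kr
      rw [hr, zero_div, mul_zero, zero_mul]
    have hK0 : Kr 0 = 6 := by
      unfold Kr
      norm_num
    obtain ⟨t, ht, h3⟩ := intermediate_value_Ioo' hr0.le Kr_cont.continuousOn
      (show (c + d) / 2 ∈ Set.Ioo (Kr r) (Kr 0) by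
        rw [hKr, hK0]
        constructor <;> linarith)
    refine ⟨t, ht.1, ?_, h3⟩
    have h4 : t < r := ht.2
    have h5 := ht.1
    nlinarith
  let O : Set ℝ := {u | 0 < u} ∩ {u | 0 < 1 - 4 * u - 3 * u ^ 2} ∩ ({u | c < Kr u} ∩ {u | Kr u < d})
  have hO : IsOpen O := by
    refine IsOpen.inter (IsOpen.inter ?_ ?_) (IsOpen.inter ?_ ?_)
    · exact isOpen_lt continuous_const continuous_id
    · exact isOpen_lt continuous_const (by fun_prop)
    · exact isOpen_lt continuous_const Kr_cont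
    · exact isOpen_lt Kr_cont continuous_const
  have huO : u0 ∈ O := by
    refine ⟨⟨hu0, hu1⟩, ?_, ?_⟩
    · change c < Kr u0
      rw [hK]
      linarith
    · change Kr u0 < d
      rw [hK]
      linarith
  obtain ⟨ε, hε, hball⟩ := Metric.isOpen_iff.1 hO u0 huO
  -- infinitely many rational points
  have hinf : {r : ℚ | (r : ℝ) ∈ O}.Infinite := by
    intro hfin
    have h1 : ∀ a b : ℝ, a < b → ∃ r : ℚ, a < r ∧ (r : ℝ) < b := fun a b h => exists_rat_btwn h
    -- a finite set cannot be dense in an interval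
    obtain ⟨r0, hr0, hr1⟩ := h1 u0 (u0 + ε) (by linarith)
    have hmem : ∀ r : ℚ, u0 < r → (r : ℝ) < u0 + ε → (r : ℝ) ∈ O := by
      intro r h2 h3
      apply hball
      rw [Metric.mem_ball, Real.dist_eq, abs_of_pos (by linarith)]
      linarith
    let T : Set ℚ := {r : ℚ | u0 < r ∧ (r : ℝ) < u0 + ε}
    have hT : T.Finite := hfin.subset fun r hr => hmem r hr.1 hr.2
    obtain ⟨m, hm, hmin⟩ := Set.exists_min_image T id hT ⟨r0, hr0, hr1⟩
    obtain ⟨r2, hr2, hr3⟩ := h1 u0 m hm.1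
    have h5 : m ≤ r2 := hmin r2 ⟨hr2, hr3.trans hm.2⟩
    have h6 : (m : ℝ) ≤ r2 := by exact_mod_cast h5
    linarith
  let Q : ℚ[X] := ∏ w ∈ F', exP w
  have hQ : Q ≠ 0 := Finset.prod_ne_zero_iff.2 fun w _ => exP_ne w
  obtain ⟨r, hr, hrQ⟩ : ∃ r : ℚ, (r : ℝ) ∈ O ∧ Q.eval r ≠ 0 := by
    by_contra hcon
    push Not at hcon
    apply hQ
    exact Polynomial.eq_zero_of_infinite_isRoot Q (hinf.mono fun r hr => hcon r hr)
  obtain ⟨⟨hr0, hr1⟩, hr2, hr3⟩ := hr
  have hr0 : (0 : ℝ) < r := hr0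
  have hr1 : (0 : ℝ) < 1 - 4 * r - 3 * (r : ℝ) ^ 2 := hr1
  have q0 : (0 : ℚ) < r := by exact_mod_cast hr0
  have q1 : (0 : ℚ) < 1 - 4 * r - 3 * r ^ 2 := by exact_mod_cast hr1
  have q2 : (0 : ℚ) < 3 + 2 * r - 2 * r ^ 2 := by nlinarith
  have hD : 0 < 1 + r + r ^ 2 := D_posQ r
  have hex : ∀ w ∈ F', (exP w).eval r ≠ 0 := by
    intro w hw
    rw [show Q.eval r = ∏ w ∈ F', (exP w).eval r from eval_prod _ _ _] at hrQ
    exact Finset.prod_ne_zero_iff.1 hrQ w hw
  have hev : ∀ w, (exP w).eval r = ((2 + 6 * r + r ^ 2) - w * (1 + r + r ^ 2)) *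
      ((1 - 4 * r - 3 * r ^ 2) - w * (1 + r + r ^ 2)) *
      ((3 + 2 * r - 2 * r ^ 2) - w * (1 + r + r ^ 2)) *
      ((2 + 6 * r + r ^ 2) * (1 - 4 * r - 3 * r ^ 2) * (3 + 2 * r - 2 * r ^ 2) -
        w * (1 + r + r ^ 2) ^ 3) := by
    intro w
    simp [exP]
  set x : ℚ := (2 + 6 * r + r ^ 2) / (1 + r + r ^ 2) with hx
  set y : ℚ := (1 - 4 * r - 3 * r ^ 2) / (1 + r + r ^ 2) with hy
  set z : ℚ := (3 + 2 * r - 2 * r ^ 2) / (1 + r + r ^ 2) with hz
  have hxF : x ∉ F' := by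
    intro h
    apply hex _ h
    rw [hev, hx, div_mul_cancel₀ _ hD.ne', sub_self, zero_mul, zero_mul, zero_mul]
  have hyF : y ∉ F' := by
    intro h
    apply hex _ h
    rw [hev, hy, div_mul_cancel₀ _ hD.ne', sub_self, mul_zero, zero_mul, zero_mul]
  have hzF : z ∉ F' := by
    intro h
    apply hex _ h
    rw [hev, hz, div_mul_cancel₀ _ hD.ne', sub_self, mul_zero, zero_mul]
  have hkF : x * y * z ∉ F' := by
    intro h
    apply hex _ h
    have h1 : x * y * z * (1 + r + r ^ 2) ^ 3 =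
        (2 + 6 * r + r ^ 2) * (1 - 4 * r - 3 * r ^ 2) * (3 + 2 * r - 2 * r ^ 2) := by
      rw [hx, hy, hz]
      field_simp
    rw [hev, h1, sub_self, mul_zero]
  have h1 : 0 < y := div_pos q1 hD
  have h2 : y < x := by
    apply div_lt_div_of_pos_right _ hD
    nlinarith
  have h4 : z = x + y := by
    rw [hx, hy, hz, ← add_div]
    congr 1
    ring
  have h5 : x ^ 2 + x * y + y ^ 2 = 7 := by
    rw [hx, hy]
    field_simp
    ring
  have hK' : ((x * y * z : ℚ) : ℝ) = Kr r := by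
    rw [hx, hy, hz]
    unfold Kr
    push_cast
    rfl
  have hx0 : 0 < x := h1.trans h2
  have h3 : x < z := by rw [h4]; linarith
  have hz0 : 0 < z := hx0.trans h3
  have n1 : x ∉ ({-x, y, -y, z, -z} : Finset ℚ) := by
    simp only [Finset.mem_insert, Finset.mem_singleton, not_or]
    refine ⟨?_, ?_, ?_, ?_, ?_⟩ <;> intro h <;> linarith
  have n2 : -x ∉ ({y, -y, z, -z} : Finset ℚ) := by
    simp only [Finset.mem_insert, Finset.mem_singleton, not_or]
    refine ⟨?_, ?_, ?_, ?_⟩ <;> intro h <;> linarith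
  have n3 : y ∉ ({-y, z, -z} : Finset ℚ) := by
    simp only [Finset.mem_insert, Finset.mem_singleton, not_or]
    refine ⟨?_, ?_, ?_⟩ <;> intro h <;> linarith
  have n4 : -y ∉ ({z, -z} : Finset ℚ) := by
    simp only [Finset.mem_insert, Finset.mem_singleton, not_or]
    refine ⟨?_, ?_⟩ <;> intro h <;> linarith
  have n5 : z ∉ ({-z} : Finset ℚ) := by
    simp only [Finset.mem_singleton]
    intro h
    linarith
  refine ⟨{x, -x, y, -y, z, -z}, x * y * z, ?_, ?_, ?_, ?_, (hF' _ hkF).1, ?_⟩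
  · rw [Finset.card_insert_of_notMem n1, Finset.card_insert_of_notMem n2,
      Finset.card_insert_of_notMem n3, Finset.card_insert_of_notMem n4,
      Finset.card_insert_of_notMem n5, Finset.card_singleton]
  · rw [Finset.disjoint_right]
    intro w hw
    simp only [Finset.mem_insert, Finset.mem_singleton] at hw
    rcases hw with h | h | h | h | h | h <;> rw [h]
    · exact (hF' _ hxF).1
    · exact (hF' _ hxF).2
    · exact (hF' _ hyF).1
    · exact (hF' _ hyF).2
    · exact (hF' _ hzF).1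
    · exact (hF' _ hzF).2
  · rw [hK']
    exact hr2
  · rw [hK']
    exact hr3
  · unfold PS
    rw [Finset.prod_insert n1, Finset.prod_insert n2, Finset.prod_insert n3,
      Finset.prod_insert n4, Finset.prod_insert n5, Finset.prod_singleton, h4]
    have h9 := congrArg (C : ℚ → ℚ[X]) h5
    simp only [map_add, map_mul, map_pow, map_neg] at h9 ⊢
    have e1 : (X - C x) * (X - C y) * (X - -(C x + C y)) =
        (X ^ 3 - C 7 * X) + C x * C y * (C x + C y) := by
      linear_combination -(X : ℚ[X]) * h9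
    have e2 : (X - -C x) * (X - -C y) * (X - (C x + C y)) =
        (X ^ 3 - C 7 * X) - C x * C y * (C x + C y) := by
      linear_combination -(X : ℚ[X]) * h9
    calc _ = ((X - C x) * (X - C y) * (X - -(C x + C y))) *
        ((X - -C x) * (X - -C y) * (X - (C x + C y))) := by ring
      _ = _ := by rw [e1, e2]; ring

end Pool.Agent.J4H28.AS
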