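import Pool.Agent.J4H20.AS.Stm

/-! # (ROOT): `G - κ` has six real roots -/

set_option autoImplicit false

namespace Pool.Agent.J4H28.AS

open Polynomial Pool.Agent.J4H20.AS

noncomputable section

theorem ne_neg' {p q k : ℝ} (hp : p ^ 3 - 7 * p = k) (hq : q ^ 3 - 7 * q = k) (hk : 0 < k) :
    p ≠ -q := by
  intro h
  rw [h] at hp
  have h1 : (-q) ^ 3 - 7 * (-q) = -(q ^ 3 - 7 * q) := by ring
  rw [h1, hq] at hp
  linarith

theorem ivt {a b k : ℝ} (hab : a ≤ b) (h1 : a ^ 3 - 7 * a < k) (h2 : k < b ^ 3 - 7 * b) :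
    ∃ t, a < t ∧ t < b ∧ t ^ 3 - 7 * t = k := by
  have hc : ContinuousOn (fun t : ℝ => t ^ 3 - 7 * t) (Set.Icc a b) := by fun_prop
  obtain ⟨t, ht, h3⟩ := intermediate_value_Ioo hab hc ⟨h1, h2⟩
  exact ⟨t, ht.1, ht.2, h3⟩

theorem ivt' {a b k : ℝ} (hab : a ≤ b) (h1 : k < a ^ 3 - 7 * a) (h2 : b ^ 3 - 7 * b < k) :
    ∃ t, a < t ∧ t < b ∧ t ^ 3 - 7 * t = k := by
  have hc : ContinuousOn (fun t : ℝ => t ^ 3 - 7 * t) (Set.Icc a b) := by fun_prop
  obtain ⟨t, ht, h3⟩ := intermediate_value_Ioo' hab hc ⟨h2, h1⟩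
  exact ⟨t, ht.1, ht.2, h3⟩

theorem t_ROOT : S_ROOT := by
  intro κ h0 h36
  set k := Real.sqrt κ with hk
  have hk0 : 0 < k := Real.sqrt_pos.2 h0
  have hk2 : k ^ 2 = κ := Real.sq_sqrt h0.le
  have hk6 : k < 6 := by nlinarith
  obtain ⟨a, a1, a2, ha⟩ := ivt (a := -3) (b := -1) (k := k) (by norm_num) (by norm_num; linarith)
    (by norm_num; linarith)
  obtain ⟨b, b1, b2, hb⟩ := ivt' (a := -1) (b := 0) (k := k) (by norm_num) (by norm_num; linarith)
    (by norm_num; linarith)
  obtain ⟨c, c1, c2, hc⟩ := ivt (a := 0) (b := 3) (k := k) (by norm_num) (by norm_num; linarith)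
    (by norm_num; linarith)
  have hab : a ≠ b := by intro h; linarith
  have hbc : b ≠ c := by intro h; linarith
  have hac : a ≠ c := by intro h; linarith
  have e1 : a ^ 2 + a * b + b ^ 2 = 7 := by
    have h1 : (a - b) * (a ^ 2 + a * b + b ^ 2 - 7) = 0 := by linear_combination ha - hb
    have h2 := (mul_eq_zero.1 h1).resolve_left (sub_ne_zero.2 hab)
    linarith
  have e2 : b ^ 2 + b * c + c ^ 2 = 7 := by
    have h1 : (b - c) * (b ^ 2 + b * c + c ^ 2 - 7) = 0 := by linear_combination hb - hc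
    have h2 := (mul_eq_zero.1 h1).resolve_left (sub_ne_zero.2 hbc)
    linarith
  have e3 : c = -(a + b) := by
    have h1 : (a - c) * (a + b + c) = 0 := by linear_combination e1 - e2
    have h2 := (mul_eq_zero.1 h1).resolve_left (sub_ne_zero.2 hac)
    linarith
  have e4 : k = -(a * b * (a + b)) := by
    rw [← ha]
    linear_combination a * e1
  have n1 : a ∉ ({b, c, -a, -b, -c} : Finset ℝ) := by
    simp only [Finset.mem_insert, Finset.mem_singleton, not_or]
    exact ⟨hab, hac, ne_neg' ha ha hk0, ne_neg' ha hb hk0, ne_neg' ha hc hk0⟩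
  have n2 : b ∉ ({c, -a, -b, -c} : Finset ℝ) := by
    simp only [Finset.mem_insert, Finset.mem_singleton, not_or]
    exact ⟨hbc, ne_neg' hb ha hk0, ne_neg' hb hb hk0, ne_neg' hb hc hk0⟩
  have n3 : c ∉ ({-a, -b, -c} : Finset ℝ) := by
    simp only [Finset.mem_insert, Finset.mem_singleton, not_or]
    exact ⟨ne_neg' hc ha hk0, ne_neg' hc hb hk0, ne_neg' hc hc hk0⟩
  have n4 : -a ∉ ({-b, -c} : Finset ℝ) := by
    simp only [Finset.mem_insert, Finset.mem_singleton, not_or, neg_inj]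
    exact ⟨hab, hac⟩
  have n5 : -b ∉ ({-c} : Finset ℝ) := by
    simp only [Finset.mem_singleton, neg_inj]
    exact hbc
  refine ⟨{a, b, c, -a, -b, -c}, ?_, ?_⟩
  · rw [Finset.card_insert_of_notMem n1, Finset.card_insert_of_notMem n2,
      Finset.card_insert_of_notMem n3, Finset.card_insert_of_notMem n4,
      Finset.card_insert_of_notMem n5, Finset.card_singleton]
  · unfold RP GP
    rw [Finset.prod_insert n1, Finset.prod_insert n2, Finset.prod_insert n3,
      Finset.prod_insert n4, Finset.prod_insert n5, Finset.prod_singleton, ← hk2, e4, e3]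
    have h9 := congrArg (C : ℝ → ℝ[X]) e1
    simp only [map_add, map_mul, map_pow, map_neg] at h9 ⊢
    have f1 : (X - C a) * (X - C b) * (X - -(C a + C b)) =
        (X ^ 3 - C 7 * X) + C a * C b * (C a + C b) := by
      linear_combination -(X : ℝ[X]) * h9
    have f2 : (X - -C a) * (X - -C b) * (X - - -(C a + C b)) =
        (X ^ 3 - C 7 * X) - C a * C b * (C a + C b) := by
      linear_combination -(X : ℝ[X]) * h9
    calc _ = ((X - C a) * (X - C b) * (X - -(C a + C b))) *
        ((X - -C a) * (X - -C b) * (X - - -(C a + C b))) := by ring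
      _ = _ := by rw [f1, f2]; ring

end

end Pool.Agent.J4H28.AS
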